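import Pool.Agent.P.MP_93c926_an.Upper

namespace Pool.Agent.Results.MP_93c926_an.Q1Upper

open Set Pool.Agent.P.MP_93c926_an
open scoped NNReal

/-- Q1 holds, with a constant of the form `C(L,T) Λ` for a `Λ`-Lipschitz target. -/
theorem result (L T : ℝ) (hL : 0 < L) (hT : 0 < T) :
    ∃ C : ℝ, 0 < C ∧ ∀ (Λ : ℝ≥0) (w : ℝ → ℝ), LipschitzOnWith Λ w (Icc 0 T) → w 0 = 0 →
      ∀ ε : ℝ, 0 < ε → cost L T w ε ≤ ENNReal.ofReal (C * Λ * Real.exp (C * Λ * ε⁻¹)) :=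
  cost_upper L T hL hT

end Pool.Agent.Results.MP_93c926_an.Q1Upper
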