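import Pool.Agent.P.MP_93c926_an.Lower

namespace Pool.Agent.Results.MP_93c926_an.Q2Lower

open Set Pool.Agent.P.MP_93c926_an

/-- For the target `w(t) = t` the cost is at least `exp (c / ε)` for small `ε`, for every
`c < L^2/4`; hence the bound `C exp (C ε^(-1/2))` of Q2 fails. -/
theorem result (L T : ℝ) (hL : 0 < L) (hT : 0 < T) (c : ℝ) (hc : c < L ^ 2 / 4) :
    ∃ ε₀ : ℝ, 0 < ε₀ ∧ ∀ ε : ℝ, 0 < ε → ε < ε₀ →
      ENNReal.ofReal (Real.exp (c * ε⁻¹)) ≤ cost L T (fun t => t) ε :=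
  cost_lower L T hL hT c hc

end Pool.Agent.Results.MP_93c926_an.Q2Lower
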